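import Mathlib
import Pool.Agent.Work.MP_f490a9_an.Third
import Pool.Agent.Work.MP_f490a9_an.AnyUniverse

/-!
# Norms that are strongly subdifferentiable only at the origin: the answer to Q1

Q1 asks whether every nonseparable real Banach space that is not Asplund has an equivalent norm
which is SSD (strongly subdifferentiable) only at the origin. The answer is yes. The theorem holds
for all real normed spaces that are not Asplund, separable or not, complete or not, in every
universe, and the new norm can be chosen as close to the given one as we like.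
-/

set_option autoImplicit false

open Filter Topology TopologicalSpace

universe u

namespace Pool.Agent.Results.MP_f490a9_an.FullAnswer

/-- A real normed space `X` is Asplund if every separable closed subspace `Y` of `X` has a
separable dual `Y*` (the space of continuous linear functionals with the dual norm). -/
def IsAsplund (X : Type u) [NormedAddCommGroup X] [NormedSpace ℝ X] : Prop :=
  ∀ Y : Submodule ℝ X, IsClosed (Y : Set X) → SeparableSpace Y → SeparableSpace (StrongDual ℝ Y)

/-- `X` is not Asplund if and only if some separable subspace `Y`, closed or not, has a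
nonseparable dual (a remark for comparison with other formulations; the theorem does not use it). -/
lemma not_isAsplund_iff (X : Type u) [NormedAddCommGroup X] [NormedSpace ℝ X] :
    ¬ IsAsplund X ↔
      ∃ Y : Submodule ℝ X, SeparableSpace Y ∧ ¬ SeparableSpace (StrongDual ℝ Y) := by
  constructor
  · intro hX
    by_contra hcon
    push Not at hcon
    exact hX fun Y _ h2 => hcon Y h2
  · rintro ⟨Y, hYs, hYd⟩ hX
    refine hYd ?_
    have h1 : IsSeparable (Y : Set X) := IsSeparable.of_subtype _
    have h2 : SeparableSpace Y.topologicalClosure := by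
      have : IsSeparable (Y.topologicalClosure : Set X) := by
        rw [Submodule.topologicalClosure_coe]
        exact h1.closure
      exact this.separableSpace
    have h3 := hX Y.topologicalClosure Y.isClosed_topologicalClosure h2
    let i : Y →L[ℝ] Y.topologicalClosure :=
      ⟨Submodule.inclusion Y.le_topologicalClosure,
        continuous_inclusion (Submodule.le_topologicalClosure Y)⟩
    let R : StrongDual ℝ Y.topologicalClosure →L[ℝ] StrongDual ℝ Y :=
      ContinuousLinearMap.precomp ℝ i
    have hR : Function.Surjective R := by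
      intro f
      obtain ⟨g, hg, -⟩ := exists_extension_norm_eq Y f
      refine ⟨g.comp Y.topologicalClosure.subtypeL, ?_⟩
      ext y
      exact hg y
    exact hR.denseRange.separableSpace R.continuous

/-- The norm `N` is SSD at `x`: the one-sided limit of `(N (x + t h) - N x) / t` as `t → 0+`
exists uniformly in `h` in the unit sphere `{h | N h = 1}` of `N`. -/
def IsSSDAt {X : Type u} [AddCommGroup X] [Module ℝ X] (N : Seminorm ℝ X) (x : X) : Prop :=
  ∃ L : X → ℝ, TendstoUniformlyOn (fun (t : ℝ) (h : X) => (N (x + t • h) - N x) / t) L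
    (𝓝[>] 0) {h : X | N h = 1}

open Pool.Agent.Work.MP_f490a9_an in
/-- SSD at `x` (with directions in the unit sphere of `N`) gives the uniform Cauchy condition `UC`
(with directions in the unit ball of the given norm). -/
lemma uc_of_isSSDAt {X : Type u} [NormedAddCommGroup X] [NormedSpace ℝ X] (N : Seminorm ℝ X)
    (K : ℝ) (hK : 0 < K) (hN : ∀ x, ‖x‖ ≤ N x) (hN' : ∀ x, N x ≤ K * ‖x‖) (x : X)
    (h : IsSSDAt N x) : UC N x := by
  obtain ⟨L, hL⟩ := h
  rw [Metric.tendstoUniformlyOn_iff] at hL
  intro ε hε
  have hL1 := hL (ε / (2 * K)) (by positivity)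
  rw [eventually_nhdsWithin_iff, Metric.eventually_nhds_iff] at hL1
  obtain ⟨δ, hδ, hd⟩ := hL1
  refine ⟨δ / K, by positivity, fun v hv s t hs hst ht => ?_⟩
  rcases eq_or_ne v 0 with rfl | hv0
  · simpa using hε
  have hν : 0 < N v := lt_of_lt_of_le (norm_pos_iff.mpr hv0) (hN v)
  have hνK : N v ≤ K := by
    have := hN' v
    nlinarith
  have ht0 : 0 < t := lt_of_lt_of_le hs hst
  have hmem : (N v)⁻¹ • v ∈ {h : X | N h = 1} := by
    show N ((N v)⁻¹ • v) = 1
    rw [map_smul_eq_mul, Real.norm_of_nonneg (inv_nonneg.mpr hν.le), inv_mul_cancel₀ hν.ne']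
  have key : ∀ r : ℝ, 0 < r → r < δ / K →
      |(N (x + r • v) - N x) / r - N v * L ((N v)⁻¹ • v)| < ε / 2 := by
    intro r hr hrδ
    have hr1 : r * N v < δ := by
      have h1 : r * K < δ := (lt_div_iff₀ hK).mp hrδ
      have h2 : r * N v ≤ r * K := mul_le_mul_of_nonneg_left hνK hr.le
      linarith
    have hr2 : 0 < r * N v := by positivity
    have h3 := @hd (r * N v) (by
      rw [Real.dist_eq, sub_zero, abs_of_pos hr2]; exact hr1) hr2 _ hmem
    rw [Real.dist_eq, smul_smul, mul_assoc, mul_inv_cancel₀ hν.ne', mul_one] at h3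
    have h4 : (N (x + r • v) - N x) / r - N v * L ((N v)⁻¹ • v)
        = -(N v * (L ((N v)⁻¹ • v) - (N (x + r • v) - N x) / (r * N v))) := by
      field_simp
      ring
    rw [h4, abs_neg, abs_mul, abs_of_pos hν]
    calc N v * |L ((N v)⁻¹ • v) - (N (x + r • v) - N x) / (r * N v)|
        < N v * (ε / (2 * K)) := mul_lt_mul_of_pos_left h3 hν
      _ ≤ K * (ε / (2 * K)) := mul_le_mul_of_nonneg_right hνK (by positivity)
      _ = ε / 2 := by field_simp
  have h1 := abs_lt.mp (key t ht0 ht)
  have h2 := abs_lt.mp (key s hs (lt_of_le_of_lt hst ht))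
  linarith [h1.2, h2.1]

/-- Every norm is SSD at the origin. -/
lemma isSSDAt_zero {X : Type u} [AddCommGroup X] [Module ℝ X] (N : Seminorm ℝ X) :
    IsSSDAt N 0 := by
  refine ⟨fun h => N h, ?_⟩
  rw [Metric.tendstoUniformlyOn_iff]
  intro ε hε
  rw [eventually_nhdsWithin_iff]
  refine Eventually.of_forall fun t ht h _ => ?_
  have ht' : (0 : ℝ) < t := ht
  have h1 : (N (0 + t • h) - N 0) / t = N h := by
    rw [zero_add, map_zero, sub_zero, map_smul_eq_mul, Real.norm_of_nonneg ht'.le,
      mul_div_cancel_left₀ _ ht'.ne']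
  rw [h1, dist_self]
  exact hε

open Pool.Agent.Work.MP_f490a9_an in
/-- **Full answer to Q1.** Let `X` be a real normed space (for instance a nonseparable Banach
space) that is not Asplund and let `ε > 0`. Then there is a norm `N` on `X` with
`‖x‖ ≤ N x ≤ (1 + ε) ‖x‖` for all `x` (so `N` is a norm, equivalent to the given one) that is SSD
exactly at the origin. -/
theorem result :
    ∀ (X : Type u) [NormedAddCommGroup X] [NormedSpace ℝ X], ¬ IsAsplund X →
      ∀ ε : ℝ, 0 < ε → ∃ N : Seminorm ℝ X,
        (∀ x : X, ‖x‖ ≤ N x ∧ N x ≤ (1 + ε) * ‖x‖) ∧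
        ∀ x : X, IsSSDAt N x ↔ x = 0 := by
  intro X _ _ hX ε hε
  have hX' : ∃ Y : Submodule ℝ X, IsClosed (Y : Set X) ∧ SeparableSpace Y ∧
      ¬ SeparableSpace (StrongDual ℝ Y) := by
    by_contra hcon
    push Not at hcon
    exact hX fun Y h1 h2 => hcon Y h1 h2
  obtain ⟨Y, -, hYs, hYd⟩ := hX'
  obtain ⟨D, top, comp, r, e, v, C, hC, hr, hsurj, hirr, he, hec, hv, happ⟩ :=
    cantor_system_univ X Y hYs hYd (1 / 100) (by norm_num)
  let S : CSystem X D :=
    { r := r, e := e, v := v, C := C, hC := hC, hr := hr, surj := hsurj, irr := hirr, he := he,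
      hec := hec, hv := hv, happ := happ }
  let M : Seminorm ℝ X := S.sem false + (S.sem true + S.sem3)
  have hM0 : ∀ x, 0 ≤ M x := fun x => apply_nonneg _ _
  have hM6 : ∀ x, M x ≤ 6 * ‖x‖ := by
    intro x
    have h1 := S.sem3_le x
    have h2 := S.sem_le false x
    have h3 := S.sem_le true x
    show S.sem false x + (S.sem true x + S.sem3 x) ≤ 6 * ‖x‖
    linarith
  let c : ℝ := ε / 6
  have hc : 0 < c := by positivity
  let c' : NNReal := ⟨c, hc.le⟩
  let A : Seminorm ℝ X := c' • M
  have hA : ∀ x, A x = c * M x := fun x => rfl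
  let N : Seminorm ℝ X := A + normSeminorm ℝ X
  have hN : ∀ x, N x = c * M x + ‖x‖ := fun x => rfl
  have hN1 : ∀ x, ‖x‖ ≤ N x := fun x => by
    have := mul_nonneg hc.le (hM0 x)
    rw [hN]; linarith
  have hN2 : ∀ x, N x ≤ (1 + ε) * ‖x‖ := fun x => by
    have h1 := mul_le_mul_of_nonneg_left (hM6 x) hc.le
    have h2 : c * (6 * ‖x‖) = ε * ‖x‖ := by show ε / 6 * (6 * ‖x‖) = ε * ‖x‖; ring
    rw [hN]; linarith
  refine ⟨N, fun x => ⟨hN1 x, hN2 x⟩, fun x => ⟨fun hssd => ?_, fun h => h ▸ isSSDAt_zero N⟩⟩
  by_contra hx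
  have hucN : UC N x := uc_of_isSSDAt N (1 + ε) (by linarith) hN1 hN2 x hssd
  have hucA : UC A x := uc_left A (normSeminorm ℝ X) x hucN
  have huc : UC M x := by
    intro η hη
    obtain ⟨δ, hδ, h⟩ := hucA (c * η) (by positivity)
    refine ⟨δ, hδ, fun w hw s t hs hst ht => ?_⟩
    have h1 := h w hw s t hs hst ht
    have h2 : (A (x + t • w) - A x) / t - (A (x + s • w) - A x) / s
        = c * ((M (x + t • w) - M x) / t - (M (x + s • w) - M x) / s) := by
      simp only [hA]
      ring
    rw [h2] at h1
    exact lt_of_mul_lt_mul_left h1 hc.le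
  have huc1 : UC (S.sem false) x := uc_left (S.sem false) (S.sem true + S.sem3) x huc
  have huc2 : UC (S.sem true) x := by
    refine uc_left (S.sem true) (S.sem false + S.sem3) x ?_
    have : (fun y => S.sem true y + (S.sem false + S.sem3) y) = ⇑M := by
      funext y
      show S.sem true y + (S.sem false y + S.sem3 y) = S.sem false y + (S.sem true y + S.sem3 y)
      ring
    rw [this]
    exact huc
  have huc3 : UC S.sem3 x := by
    refine uc_left S.sem3 (S.sem false + S.sem true) x ?_
    have : (fun y => S.sem3 y + (S.sem false + S.sem true) y) = ⇑M := by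
      funext y
      show S.sem3 y + (S.sem false y + S.sem true y) = S.sem false y + (S.sem true y + S.sem3 y)
      ring
    rw [this]
    exact huc
  by_cases h0 : ∀ d, S.e d x = 0
  · exact S.not_uc_sem3 x hx h0 huc3
  · push Not at h0
    obtain ⟨d, hd⟩ := h0
    rcases hb : S.r d 0 with _ | _
    · exact S.not_uc_sem true x ⟨d, by simpa using hb, hd⟩ huc2
    · exact S.not_uc_sem false x ⟨d, by simpa using hb, hd⟩ huc1

end Pool.Agent.Results.MP_f490a9_an.FullAnswer
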